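import Mathlib

/-!
# Shifted Douglas-Rachford iterates for two balls

For two closed balls `A`, `B` in a finite-dimensional real inner product space (in particular in
`ℝ³`), with Douglas-Rachford operator `T` and minimal displacement vector `v`, the sequence
`T^n x + n v` converges for every starting point `x`.
-/

namespace Pool.Agent.Results.MP_ef197a_an.TwoBalls

open Set Filter Topology Metric
open scoped RealInnerProductSpace

variable {E : Type*} [NormedAddCommGroup E] [InnerProductSpace ℝ E]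

open Classical in
/-- The nearest-point projection onto `C` (junk value `x` if there is no nearest point). -/
noncomputable def proj (C : Set E) (x : E) : E :=
  if h : ∃ p ∈ C, ∀ q ∈ C, ‖x - p‖ ≤ ‖x - q‖ then h.choose else x

/-- The reflector `R_C = 2 P_C - Id`. -/
noncomputable def refl (C : Set E) (x : E) : E := (2 : ℝ) • proj C x - x

/-- The Douglas-Rachford operator `T = (Id + R_B R_A) / 2`. -/
noncomputable def DR (A B : Set E) (x : E) : E := (1 / 2 : ℝ) • (x + refl B (refl A x))

/-- The minimal displacement vector `P_{cl ran (Id - T)} 0`. -/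
noncomputable def minDisp (T : E → E) : E := proj (closure (range fun x => x - T x)) 0

lemma proj_spec' {C : Set E} {x : E} (h : ∃ p ∈ C, ∀ q ∈ C, ‖x - p‖ ≤ ‖x - q‖) :
    proj C x ∈ C ∧ ∀ q ∈ C, ‖x - proj C x‖ ≤ ‖x - q‖ := by
  classical
  unfold proj
  rw [dif_pos h]
  exact h.choose_spec

/-- The point of the ball `B(a,r)` nearest to `x`. -/
lemma exists_near (a : E) {r : ℝ} (hr : 0 ≤ r) (x : E) :
    ∃ t : ℝ, a + t • (x - a) ∈ closedBall a r ∧
      ∀ q ∈ closedBall a r, ‖x - (a + t • (x - a))‖ ≤ ‖x - q‖ := by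
  by_cases h : ‖x - a‖ ≤ r
  · refine ⟨1, ?_, fun q _ => ?_⟩
    · rw [one_smul, add_sub_cancel, mem_closedBall, dist_eq_norm]
      exact h
    · rw [one_smul, add_sub_cancel, sub_self, norm_zero]
      exact norm_nonneg _
  · push Not at h
    have h0 : 0 < ‖x - a‖ := hr.trans_lt h
    refine ⟨r / ‖x - a‖, ?_, fun q hq => ?_⟩
    · rw [mem_closedBall, dist_eq_norm, add_sub_cancel_left, norm_smul, Real.norm_eq_abs,
        abs_of_nonneg (by positivity), div_mul_cancel₀ _ h0.ne']
    · have e1 : x - (a + (r / ‖x - a‖) • (x - a)) = (1 - r / ‖x - a‖) • (x - a) := by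
        rw [sub_smul, one_smul]
        abel
      have h1 : 0 ≤ 1 - r / ‖x - a‖ := by
        rw [sub_nonneg, div_le_one h0]
        exact h.le
      rw [e1, norm_smul, Real.norm_eq_abs, abs_of_nonneg h1, sub_mul, one_mul,
        div_mul_cancel₀ _ h0.ne']
      rw [mem_closedBall, dist_eq_norm] at hq
      have h2 : ‖x - a‖ ≤ ‖x - q‖ + ‖q - a‖ := by
        have := norm_add_le (x - q) (q - a)
        rwa [sub_add_sub_cancel] at this
      linarith

lemma ball_exists (a : E) {r : ℝ} (hr : 0 ≤ r) (x : E) :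
    ∃ p ∈ closedBall a r, ∀ q ∈ closedBall a r, ‖x - p‖ ≤ ‖x - q‖ := by
  obtain ⟨t, h1, h2⟩ := exists_near a hr x
  exact ⟨_, h1, h2⟩

/-- The variational inequality. -/
lemma var_ineq {C : Set E} (hC : Convex ℝ C) {x p : E} (hp : p ∈ C)
    (h : ∀ q ∈ C, ‖x - p‖ ≤ ‖x - q‖) {q : E} (hq : q ∈ C) : ⟪x - p, q - p⟫ ≤ 0 := by
  by_contra hcon
  push Not at hcon
  set i : ℝ := ⟪x - p, q - p⟫ with hi
  set d : ℝ := ‖q - p‖ ^ 2 with hd
  have hd0 : 0 ≤ d := by positivity
  have key : ∀ t : ℝ, 0 ≤ t → t ≤ 1 → 2 * t * i ≤ t ^ 2 * d := by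
    intro t ht0 ht1
    have h1 : p + t • (q - p) ∈ C := by
      have := hC hp hq (sub_nonneg.2 ht1) ht0 (by ring)
      convert this using 1
      rw [sub_smul, one_smul, smul_sub]
      abel
    have h2 := h _ h1
    have h3 : ‖x - p‖ ^ 2 ≤ ‖x - (p + t • (q - p))‖ ^ 2 := by
      have := norm_nonneg (x - p)
      nlinarith
    have h4 : x - (p + t • (q - p)) = (x - p) - t • (q - p) := by abel
    rw [h4, norm_sub_sq_real (x - p) (t • (q - p)), real_inner_smul_right, norm_smul,
      Real.norm_eq_abs, abs_of_nonneg ht0, mul_pow, ← hi, ← hd] at h3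
    linarith
  by_cases hdi : d ≤ i
  · have := key 1 zero_le_one le_rfl
    linarith
  · push Not at hdi
    have hdp : 0 < d := hcon.trans hdi
    have := key (i / d) (by positivity) (by rw [div_le_one hdp]; exact hdi.le)
    have e1 : 2 * (i / d) * i = 2 * (i ^ 2 / d) := by ring
    have e2 : (i / d) ^ 2 * d = i ^ 2 / d := by
      field_simp
    rw [e1, e2] at this
    have : 0 < i ^ 2 / d := by positivity
    linarith

lemma proj_eq {C : Set E} (hC : Convex ℝ C) {x p : E} (hp : p ∈ C)
    (h : ∀ q ∈ C, ‖x - p‖ ≤ ‖x - q‖) : proj C x = p := by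
  obtain ⟨h1, h2⟩ := proj_spec' ⟨p, hp, h⟩
  set P := proj C x
  have h3 := var_ineq hC h1 h2 hp
  have h4 : ‖x - p‖ ^ 2 ≤ ‖x - P‖ ^ 2 := by
    have := h _ h1
    have := norm_nonneg (x - p)
    nlinarith
  have h5 : x - p = (x - P) - (p - P) := by abel
  rw [h5, norm_sub_sq_real] at h4
  have h6 : ‖p - P‖ ^ 2 ≤ 0 := by linarith
  have h7 : ‖p - P‖ = 0 := by
    have := norm_nonneg (p - P)
    nlinarith
  rw [norm_eq_zero, sub_eq_zero] at h7
  exact h7.symm

section ball

variable (a : E) {r : ℝ} (hr : 0 ≤ r)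

include hr

lemma proj_ball_mem (x : E) : proj (closedBall a r) x ∈ closedBall a r :=
  (proj_spec' (ball_exists a hr x)).1

lemma proj_ball_le (x : E) : ∀ q ∈ closedBall a r, ‖x - proj (closedBall a r) x‖ ≤ ‖x - q‖ :=
  (proj_spec' (ball_exists a hr x)).2

lemma proj_ball_line (x : E) : ∃ t : ℝ, proj (closedBall a r) x = a + t • (x - a) := by
  obtain ⟨t, h1, h2⟩ := exists_near a hr x
  exact ⟨t, proj_eq (convex_closedBall a r) h1 h2⟩

lemma proj_firm (x y : E) : ‖proj (closedBall a r) x - proj (closedBall a r) y‖ ^ 2 ≤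
    ⟪x - y, proj (closedBall a r) x - proj (closedBall a r) y⟫ := by
  have h1 := var_ineq (convex_closedBall a r) (proj_ball_mem a hr x) (proj_ball_le a hr x)
    (proj_ball_mem a hr y)
  have h2 := var_ineq (convex_closedBall a r) (proj_ball_mem a hr y) (proj_ball_le a hr y)
    (proj_ball_mem a hr x)
  set p := proj (closedBall a r) x
  set q := proj (closedBall a r) y
  have h3 : ⟪x - p, q - p⟫ = -⟪x, p - q⟫ + ⟪p, p - q⟫ := by
    rw [← neg_sub p q, inner_neg_right, inner_sub_left]
    ring
  have h4 : ⟪y - q, p - q⟫ = ⟪y, p - q⟫ - ⟪q, p - q⟫ := by rw [inner_sub_left]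
  have h5 : ‖p - q‖ ^ 2 = ⟪p, p - q⟫ - ⟪q, p - q⟫ := by
    rw [← real_inner_self_eq_norm_sq, inner_sub_left]
  rw [inner_sub_left, h5]
  linarith

lemma refl_nonexp (x y : E) : ‖refl (closedBall a r) x - refl (closedBall a r) y‖ ≤ ‖x - y‖ := by
  have h := proj_firm a hr x y
  unfold refl
  set p := proj (closedBall a r) x
  set q := proj (closedBall a r) y
  have e : (2 : ℝ) • p - x - ((2 : ℝ) • q - y) = (2 : ℝ) • (p - q) - (x - y) := by
    rw [smul_sub]
    abel
  rw [e]
  refine le_of_sq_le_sq ?_ (norm_nonneg _)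
  rw [norm_sub_sq_real, real_inner_smul_left, norm_smul, Real.norm_eq_abs, abs_two, mul_pow,
    real_inner_comm]
  linarith

end ball

/-- Firm nonexpansiveness (in the form used below). -/
def Firm (T : E → E) : Prop :=
  ∀ x y, ‖T x - T y‖ ^ 2 + ‖(x - T x) - (y - T y)‖ ^ 2 ≤ ‖x - y‖ ^ 2

lemma DR_firm (a b : E) {r s : ℝ} (hr : 0 ≤ r) (hs : 0 ≤ s) :
    Firm (DR (closedBall a r) (closedBall b s)) := by
  intro x y
  have h : ‖refl (closedBall b s) (refl (closedBall a r) x) -
      refl (closedBall b s) (refl (closedBall a r) y)‖ ≤ ‖x - y‖ :=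
    (refl_nonexp b hs _ _).trans (refl_nonexp a hr _ _)
  unfold DR
  set m := refl (closedBall b s) (refl (closedBall a r) x)
  set n := refl (closedBall b s) (refl (closedBall a r) y)
  have e1 : (1 / 2 : ℝ) • (x + m) - (1 / 2 : ℝ) • (y + n) =
      (1 / 2 : ℝ) • ((x - y) + (m - n)) := by
    rw [← smul_sub]
    congr 1
    abel
  have e2 : x - (1 / 2 : ℝ) • (x + m) - (y - (1 / 2 : ℝ) • (y + n)) =
      (1 / 2 : ℝ) • ((x - y) - (m - n)) := by
    module
  rw [e1, e2, norm_smul, norm_smul, Real.norm_eq_abs, abs_of_pos (by norm_num : (0 : ℝ) < 1 / 2),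
    mul_pow, mul_pow, norm_add_sq_real (x - y) (m - n), norm_sub_sq_real (x - y) (m - n)]
  have h1 := norm_nonneg (m - n)
  have h2 : ‖m - n‖ ^ 2 ≤ ‖x - y‖ ^ 2 := pow_le_pow_left₀ h1 h 2
  linarith

/-- Real sequences with converging squares and increments tending to zero converge. -/
lemma seq_conv {c : ℕ → ℝ} {L : ℝ} (h1 : Tendsto (fun n => c n ^ 2) atTop (𝓝 L))
    (h2 : Tendsto (fun n => c (n + 1) - c n) atTop (𝓝 0)) :
    ∃ l, Tendsto c atTop (𝓝 l) := by
  have habs : Tendsto (fun n => |c n|) atTop (𝓝 (√L)) := by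
    have := (Real.continuous_sqrt.tendsto L).comp h1
    simpa [Function.comp_def, Real.sqrt_sq_eq_abs] using this
  rcases (Real.sqrt_nonneg L).eq_or_lt with h0 | h0
  · rw [← h0] at habs
    exact ⟨0, (tendsto_zero_iff_abs_tendsto_zero _).2 habs⟩
  · have e1 := habs.eventually (eventually_gt_nhds (show √L / 2 < √L by linarith))
    have e2 := ((tendsto_zero_iff_abs_tendsto_zero _).1 h2).eventually
      (eventually_lt_nhds (show (0 : ℝ) < √L / 2 by linarith))
    obtain ⟨N, hN⟩ := eventually_atTop.1 (e1.and e2)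
    have hsgn : ∀ n, N ≤ n → (0 < c n → 0 < c (n + 1)) ∧ (c n < 0 → c (n + 1) < 0) := by
      intro n hn
      obtain ⟨h3, h4⟩ := hN n hn
      have h4' := abs_lt.1 h4
      constructor
      · intro hp
        simp only [abs_of_pos hp] at h3
        linarith [h4'.1]
      · intro hp
        simp only [abs_of_neg hp] at h3
        linarith [h4'.2]
    have hne : c N ≠ 0 := by
      intro h
      have := (hN N le_rfl).1
      simp only [h, abs_zero] at this
      linarith
    rcases lt_or_gt_of_ne hne with hneg | hpos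
    · refine ⟨-√L, ?_⟩
      have hall : ∀ n, N ≤ n → c n < 0 := by
        intro n hn
        induction n, hn using Nat.le_induction with
        | base => exact hneg
        | succ n hn ih => exact (hsgn n hn).2 ih
      refine habs.neg.congr' ?_
      filter_upwards [eventually_ge_atTop N] with n hn
      rw [abs_of_neg (hall n hn), neg_neg]
    · refine ⟨√L, ?_⟩
      have hall : ∀ n, N ≤ n → 0 < c n := by
        intro n hn
        induction n, hn using Nat.le_induction with
        | base => exact hpos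
        | succ n hn ih => exact (hsgn n hn).1 ih
      refine habs.congr' ?_
      filter_upwards [eventually_ge_atTop N] with n hn
      rw [abs_of_pos (hall n hn)]

/-- If `c (n+1) ^ 2 + d n ^ 2 ≤ c n ^ 2` then `d n → 0` and `c n ^ 2` converges. -/
lemma fejer_real {c d : ℕ → ℝ} (hc : ∀ n, 0 ≤ c n) (hd : ∀ n, 0 ≤ d n)
    (h : ∀ n, c (n + 1) ^ 2 + d n ^ 2 ≤ c n ^ 2) :
    Tendsto d atTop (𝓝 0) ∧ ∃ L, Tendsto (fun n => c n ^ 2) atTop (𝓝 L) := by
  have hanti : Antitone fun n => c n ^ 2 := antitone_nat_of_succ_le fun n => by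
    have := h n
    nlinarith [sq_nonneg (d n)]
  have hb : BddBelow (range fun n => c n ^ 2) := ⟨0, by rintro _ ⟨n, rfl⟩; positivity⟩
  have hlim := tendsto_atTop_ciInf hanti hb
  refine ⟨?_, _, hlim⟩
  have h2 : Tendsto (fun n => c n ^ 2 - c (n + 1) ^ 2) atTop (𝓝 0) := by
    have := hlim.sub ((tendsto_add_atTop_iff_nat 1).2 hlim)
    simpa using this
  have h3 : Tendsto (fun n => d n ^ 2) atTop (𝓝 0) :=
    squeeze_zero (fun n => sq_nonneg _) (fun n => by linarith [h n]) h2
  have h4 := (Real.continuous_sqrt.tendsto 0).comp h3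
  rw [Real.sqrt_zero] at h4
  refine h4.congr fun n => ?_
  simp [Function.comp_def, Real.sqrt_sq (hd n)]

section iter

variable {T : E → E} (hT : Firm T)

include hT

lemma Firm.nonexp (x y : E) : ‖T x - T y‖ ≤ ‖x - y‖ := by
  refine le_of_sq_le_sq ?_ (norm_nonneg _)
  have := hT x y
  nlinarith [sq_nonneg ‖(x - T x) - (y - T y)‖]

lemma Firm.continuous : Continuous T := by
  have : LipschitzWith 1 T := LipschitzWith.of_dist_le_mul fun x y => by
    rw [dist_eq_norm, dist_eq_norm, NNReal.coe_one, one_mul]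
    exact hT.nonexp x y
  exact this.continuous

/-- Krasnoselskii-Mann. -/
lemma Firm.converges [FiniteDimensional ℝ E] {c : E} (hc : T c = c) (x : E) :
    ∃ y, Tendsto (fun n : ℕ => T^[n] x) atTop (𝓝 y) := by
  have key : ∀ z, T z = z → ∀ n, ‖T^[n + 1] x - z‖ ^ 2 + ‖T^[n] x - T^[n + 1] x‖ ^ 2 ≤
      ‖T^[n] x - z‖ ^ 2 := by
    intro z hz n
    have := hT (T^[n] x) z
    rw [hz, sub_self, sub_zero] at this
    rw [Function.iterate_succ_apply']
    exact this
  obtain ⟨h1, -⟩ := fejer_real (c := fun n => ‖T^[n] x - c‖)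
    (d := fun n => ‖T^[n] x - T^[n + 1] x‖) (fun n => norm_nonneg _) (fun n => norm_nonneg _)
    (key c hc)
  have hbd : ∀ n, T^[n] x ∈ closedBall c ‖x - c‖ := by
    intro n
    induction n with
    | zero => simp [mem_closedBall, dist_eq_norm]
    | succ n ih =>
      rw [mem_closedBall, dist_eq_norm] at ih ⊢
      refine le_trans ?_ ih
      refine le_of_sq_le_sq ?_ (norm_nonneg _)
      have := key c hc n
      nlinarith [sq_nonneg ‖T^[n] x - T^[n + 1] x‖]
  obtain ⟨y, -, φ, hφ, hlim⟩ := (isCompact_closedBall c ‖x - c‖).tendsto_subseq hbd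
  have hTy : T y = y := by
    have h3 : Tendsto (fun n => T^[φ n] x - T^[φ n + 1] x) atTop (𝓝 0) := by
      rw [tendsto_zero_iff_norm_tendsto_zero]
      exact h1.comp hφ.tendsto_atTop
    have h4 : Tendsto (fun n => T^[φ n] x - T^[φ n + 1] x) atTop (𝓝 (y - T y)) := by
      refine Tendsto.sub hlim ?_
      have := (hT.continuous.tendsto y).comp hlim
      refine this.congr fun n => ?_
      simp only [Function.comp_apply]
      rw [Function.iterate_succ_apply']
    have := tendsto_nhds_unique h4 h3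
    rw [sub_eq_zero] at this
    exact this.symm
  refine ⟨y, ?_⟩
  rw [tendsto_iff_norm_sub_tendsto_zero]
  have hanti : Antitone fun n => ‖T^[n] x - y‖ := antitone_nat_of_succ_le fun n => by
    refine le_of_sq_le_sq ?_ (norm_nonneg _)
    have := key y hTy n
    nlinarith [sq_nonneg ‖T^[n] x - T^[n + 1] x‖]
  have hb : BddBelow (range fun n => ‖T^[n] x - y‖) := ⟨0, by rintro _ ⟨n, rfl⟩; positivity⟩
  have hl := tendsto_atTop_ciInf hanti hb
  have hl2 : Tendsto (fun n => ‖T^[φ n] x - y‖) atTop (𝓝 0) := by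
    have := (tendsto_iff_norm_sub_tendsto_zero).1 hlim
    exact this
  have := tendsto_nhds_unique (hl.comp hφ.tendsto_atTop) hl2
  rwa [this] at hl

end iter

lemma proj_out (a : E) {r : ℝ} (hr : 0 ≤ r) {e : E} (he : ‖e‖ = 1) {ρ : ℝ} (hρ : r ≤ ρ) :
    proj (closedBall a r) (a + ρ • e) = a + r • e := by
  refine proj_eq (convex_closedBall a r) ?_ fun q hq => ?_
  · rw [mem_closedBall, dist_eq_norm, add_sub_cancel_left, norm_smul, he, mul_one,
      Real.norm_eq_abs, abs_of_nonneg hr]
  · have e1 : a + ρ • e - (a + r • e) = (ρ - r) • e := by module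
    rw [e1, norm_smul, he, mul_one, Real.norm_eq_abs, abs_of_nonneg (sub_nonneg.2 hρ)]
    rw [mem_closedBall, dist_eq_norm] at hq
    have h2 := norm_add_le (a + ρ • e - q) (q - a)
    rw [sub_add_sub_cancel, add_sub_cancel_left, norm_smul, he, mul_one, Real.norm_eq_abs,
      abs_of_nonneg (hr.trans hρ)] at h2
    linarith

section disjoint

variable (a : E) {u : E} (hu : ‖u‖ = 1) {r s D : ℝ} (hr : 0 ≤ r) (hs : 0 ≤ s) (hD : r + s < D)

include hu hr hs hD

lemma T_axis {t : ℝ} (ht : 0 ≤ t) :
    DR (closedBall a r) (closedBall (a + D • u) s) (a + (r + t) • u) =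
      a + (r + t + (D - r - s)) • u := by
  have h1 : proj (closedBall a r) (a + (r + t) • u) = a + r • u :=
    proj_out a hr hu (by linarith)
  have h2 : refl (closedBall a r) (a + (r + t) • u) = (a + D • u) + (D - r + t) • (-u) := by
    unfold refl
    rw [h1]
    module
  have h3 : proj (closedBall (a + D • u) s) ((a + D • u) + (D - r + t) • (-u)) =
      (a + D • u) + s • (-u) := proj_out _ hs (by rw [norm_neg, hu]) (by linarith)
  unfold DR
  rw [h2]
  unfold refl
  rw [h3]
  module

lemma sub_T_mem (z : E) :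
    ‖(z - DR (closedBall a r) (closedBall (a + D • u) s) z) + D • u‖ ≤ r + s := by
  have h1 := proj_ball_mem a hr z
  have h2 := proj_ball_mem (a + D • u) hs (refl (closedBall a r) z)
  rw [mem_closedBall, dist_eq_norm] at h1 h2
  have e : (z - DR (closedBall a r) (closedBall (a + D • u) s) z) + D • u =
      (proj (closedBall a r) z - a) -
        (proj (closedBall (a + D • u) s) (refl (closedBall a r) z) - (a + D • u)) := by
    have e2 : refl (closedBall (a + D • u) s) (refl (closedBall a r) z) =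
        (2 : ℝ) • proj (closedBall (a + D • u) s) (refl (closedBall a r) z) -
          ((2 : ℝ) • proj (closedBall a r) z - z) := rfl
    unfold DR
    rw [e2]
    module
  rw [e]
  exact (norm_sub_le _ _).trans (add_le_add h1 h2)

lemma minDisp_eq : minDisp (DR (closedBall a r) (closedBall (a + D • u) s)) =
    -((D - r - s) • u) := by
  set T := DR (closedBall a r) (closedBall (a + D • u) s) with hT
  have hδ : 0 < D - r - s := by linarith
  have hD0 : 0 < D := by linarith
  have hcl : ∀ q ∈ closure (range fun x => x - T x), ‖q + D • u‖ ≤ r + s := by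
    intro q hq
    have hclosed : IsClosed {q : E | ‖q + D • u‖ ≤ r + s} :=
      isClosed_le ((continuous_id.add continuous_const).norm) continuous_const
    refine closure_minimal ?_ hclosed hq
    rintro _ ⟨z, rfl⟩
    exact sub_T_mem a hu hr hs hD z
  have hmem : -((D - r - s) • u) ∈ closure (range fun x => x - T x) := by
    refine subset_closure ⟨a + (r + 0) • u, ?_⟩
    simp only [hT]
    rw [T_axis a hu hr hs hD le_rfl]
    module
  have hnorm : ∀ q ∈ closure (range fun x => x - T x), D - r - s ≤ ‖q‖ := by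
    intro q hq
    have h1 := hcl q hq
    have h2 := norm_sub_le (q + D • u) q
    rw [add_sub_cancel_left, norm_smul, hu, mul_one, Real.norm_eq_abs, abs_of_pos hD0] at h2
    linarith
  have hn : ‖-((D - r - s) • u)‖ = D - r - s := by
    rw [norm_neg, norm_smul, hu, mul_one, Real.norm_eq_abs, abs_of_pos hδ]
  obtain ⟨h1, h2⟩ := proj_spec' (C := closure (range fun x => x - T x)) (x := (0 : E))
    ⟨_, hmem, fun q hq => by
      rw [zero_sub, zero_sub, norm_neg, norm_neg q, hn]
      exact hnorm q hq⟩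
  change proj (closure (range fun x => x - T x)) 0 = _
  set v := proj (closure (range fun x => x - T x)) 0 with hv
  have h3 := h2 _ hmem
  rw [zero_sub, zero_sub, norm_neg, norm_neg (-((D - r - s) • u)), hn] at h3
  have h4 := hcl v h1
  have h5 : ‖v + D • u‖ ^ 2 ≤ (r + s) ^ 2 := pow_le_pow_left₀ (norm_nonneg _) h4 2
  have h6 : ‖v‖ ^ 2 ≤ (D - r - s) ^ 2 := pow_le_pow_left₀ (norm_nonneg _) h3 2
  rw [norm_add_sq_real v (D • u), real_inner_smul_right, norm_smul, hu, mul_one,
    Real.norm_eq_abs, sq_abs] at h5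
  have h7 : ‖v + (D - r - s) • u‖ ^ 2 ≤ 0 := by
    rw [norm_add_sq_real v ((D - r - s) • u), real_inner_smul_right, norm_smul, hu, mul_one,
      Real.norm_eq_abs, sq_abs]
    set i : ℝ := ⟪v, u⟫
    set δ := D - r - s with hδd
    have e1 : r + s = D - δ := by rw [hδd]; ring
    rw [e1] at h5
    have hδD : δ ≤ D := by rw [hδd]; linarith
    have h8 : D * (‖v‖ ^ 2 + 2 * (δ * i) + δ ^ 2) ≤ 0 := by
      have h9 : 2 * (D * i) ≤ (D - δ) ^ 2 - D ^ 2 - ‖v‖ ^ 2 := by linarith
      have h10 : δ * (2 * (D * i)) ≤ δ * ((D - δ) ^ 2 - D ^ 2 - ‖v‖ ^ 2) :=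
        mul_le_mul_of_nonneg_left h9 hδ.le
      have h11 : (D - δ) * ‖v‖ ^ 2 ≤ (D - δ) * δ ^ 2 :=
        mul_le_mul_of_nonneg_left h6 (sub_nonneg.2 hδD)
      nlinarith
    by_contra hcon
    push Not at hcon
    nlinarith [mul_pos hD0 hcon]
  have h12 : ‖v + (D - r - s) • u‖ = 0 := by
    have := norm_nonneg (v + (D - r - s) • u)
    nlinarith
  rw [norm_eq_zero] at h12
  exact eq_neg_of_add_eq_zero_left h12

lemma plane (w : E) {z : E} (hz : ∃ α β : ℝ, z = a + α • u + β • w) :
    ∃ α β : ℝ, DR (closedBall a r) (closedBall (a + D • u) s) z = a + α • u + β • w := by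
  obtain ⟨α, β, rfl⟩ := hz
  obtain ⟨t, ht⟩ := proj_ball_line a hr (a + α • u + β • w)
  set z := a + α • u + β • w with hz
  obtain ⟨t', ht'⟩ := proj_ball_line (a + D • u) hs (refl (closedBall a r) z)
  have e1 : refl (closedBall a r) z = a + ((2 * t - 1) * α) • u + ((2 * t - 1) * β) • w := by
    unfold refl
    rw [ht, hz]
    module
  have e2 : refl (closedBall (a + D • u) s) (refl (closedBall a r) z) =
      a + ((2 * t' - 1) * ((2 * t - 1) * α) + 2 * (D - t' * D)) • u +
        ((2 * t' - 1) * ((2 * t - 1) * β)) • w := by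
    have : refl (closedBall (a + D • u) s) (refl (closedBall a r) z) =
      (2 : ℝ) • proj (closedBall (a + D • u) s) (refl (closedBall a r) z) -
        refl (closedBall a r) z := rfl
    rw [this, ht', e1]
    module
  refine ⟨(1 / 2) * (α + ((2 * t' - 1) * ((2 * t - 1) * α) + 2 * (D - t' * D))),
    (1 / 2) * (β + (2 * t' - 1) * ((2 * t - 1) * β)), ?_⟩
  unfold DR
  rw [e2, hz]
  module

lemma disjoint_case (x : E) : ∃ y, Tendsto (fun n : ℕ =>
    (DR (closedBall a r) (closedBall (a + D • u) s))^[n] x +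
      (n : ℝ) • minDisp (DR (closedBall a r) (closedBall (a + D • u) s))) atTop (𝓝 y) := by
  have hfirm : Firm (DR (closedBall a r) (closedBall (a + D • u) s)) := DR_firm a _ hr hs
  rw [minDisp_eq a hu hr hs hD]
  have haxis : ∀ t : ℝ, 0 ≤ t →
      DR (closedBall a r) (closedBall (a + D • u) s) (a + (r + t) • u) =
      a + (r + t + (D - r - s)) • u := fun t ht => T_axis a hu hr hs hD ht
  have hplane := fun w z => plane a hu hr hs hD w (z := z)
  generalize DR (closedBall a r) (closedBall (a + D • u) s) = T at *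
  have hδ : 0 < D - r - s := by linarith
  generalize D - r - s = δ at *
  set y : ℕ → E := fun n => T^[n] x + (n : ℝ) • (-(δ • u)) with hy
  have key : ∀ t : ℝ, 0 ≤ t → ∀ n, ‖y (n + 1) - (a + (r + t) • u)‖ ^ 2 + ‖y n - y (n + 1)‖ ^ 2 ≤
      ‖y n - (a + (r + t) • u)‖ ^ 2 := by
    intro t ht n
    have h0 : T (a + (r + (t + n * δ)) • u) = a + (r + (t + n * δ) + δ) • u :=
      haxis _ (by positivity)
    have h1 := hfirm (T^[n] x) (a + (r + (t + n * δ)) • u)
    rw [h0] at h1
    have e1 : y (n + 1) - (a + (r + t) • u) = T (T^[n] x) - (a + (r + (t + n * δ) + δ) • u) := by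
      simp only [hy]
      rw [Function.iterate_succ_apply']
      push_cast
      module
    have e2 : y n - y (n + 1) = T^[n] x - T (T^[n] x) -
        (a + (r + (t + n * δ)) • u - (a + (r + (t + n * δ) + δ) • u)) := by
      simp only [hy]
      rw [Function.iterate_succ_apply']
      push_cast
      module
    have e3 : y n - (a + (r + t) • u) = T^[n] x - (a + (r + (t + n * δ)) • u) := by
      simp only [hy]
      module
    rw [e1, e2, e3]
    exact h1
  obtain ⟨hd, L0, hL0⟩ := fejer_real (c := fun n => ‖y n - (a + (r + 0) • u)‖)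
    (d := fun n => ‖y n - y (n + 1)‖) (fun n => norm_nonneg _) (fun n => norm_nonneg _)
    (key 0 le_rfl)
  obtain ⟨-, L1, hL1⟩ := fejer_real (c := fun n => ‖y n - (a + (r + 1) • u)‖)
    (d := fun n => ‖y n - y (n + 1)‖) (fun n => norm_nonneg _) (fun n => norm_nonneg _)
    (key 1 zero_le_one)
  have hexp : ∀ (t : ℝ) n, ‖y n - (a + (r + t) • u)‖ ^ 2 =
      ‖y n - a‖ ^ 2 - 2 * ((r + t) * ⟪y n - a, u⟫) + (r + t) ^ 2 := by
    intro t n
    have : y n - (a + (r + t) • u) = (y n - a) - (r + t) • u := by module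
    rw [this, norm_sub_sq_real (y n - a) ((r + t) • u), real_inner_smul_right, norm_smul, hu,
      mul_one, Real.norm_eq_abs, sq_abs]
  have hp : ∃ l, Tendsto (fun n => ⟪y n - a, u⟫) atTop (𝓝 l) := by
    have h1 := ((hL0.sub hL1).add_const ((r + 1) ^ 2 - r ^ 2)).const_mul (1 / 2)
    refine ⟨_, h1.congr fun n => ?_⟩
    rw [hexp, hexp]
    ring
  obtain ⟨l, hl⟩ := hp
  have hq : ∃ L, Tendsto (fun n => ‖y n - a‖ ^ 2) atTop (𝓝 L) := by
    have h1 := (hL0.add (hl.const_mul (2 * r))).sub_const (r ^ 2)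
    refine ⟨_, h1.congr fun n => ?_⟩
    rw [hexp]
    ring
  obtain ⟨L, hL⟩ := hq
  set w : E := (x - a) - ⟪x - a, u⟫ • u with hw
  have hwu : ⟪w, u⟫ = 0 := by
    rw [hw, inner_sub_left, real_inner_smul_left, real_inner_self_eq_norm_sq, hu]
    ring
  have hab : ∀ n, ∃ α β : ℝ, T^[n] x = a + α • u + β • w := by
    intro n
    induction n with
    | zero =>
      refine ⟨⟪x - a, u⟫, 1, ?_⟩
      simp only [Function.iterate_zero, id, hw]
      module
    | succ n ih =>
      rw [Function.iterate_succ_apply']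
      exact hplane w _ ih
  choose α β hαβ using hab
  have hyn : ∀ n, y n - a = (α n - n * δ) • u + β n • w := by
    intro n
    simp only [hy]
    rw [hαβ n]
    module
  have hin : ∀ n, ⟪y n - a, u⟫ = α n - n * δ := by
    intro n
    rw [hyn, inner_add_left, real_inner_smul_left, real_inner_smul_left, hwu,
      real_inner_self_eq_norm_sq, hu]
    ring
  have hpyth : ∀ p q : ℝ, ‖p • u + q • w‖ ^ 2 = p ^ 2 + (q * ‖w‖) ^ 2 := by
    intro p q
    rw [norm_add_sq_real (p • u) (q • w), real_inner_smul_left, real_inner_smul_right,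
      real_inner_comm, hwu, norm_smul, norm_smul, hu, mul_one, Real.norm_eq_abs, sq_abs, mul_pow,
      Real.norm_eq_abs, sq_abs, mul_pow]
    ring
  obtain ⟨m, hm⟩ := seq_conv (c := fun n => β n * ‖w‖) (L := L - l ^ 2) (by
      refine (hL.sub (hl.pow 2)).congr fun n => ?_
      rw [hin, hyn, hpyth]
      ring) (by
      rw [tendsto_zero_iff_abs_tendsto_zero]
      refine squeeze_zero (fun n => abs_nonneg _) (fun n => ?_) hd
      refine abs_le_of_sq_le_sq ?_ (norm_nonneg _)
      have e : y n - y (n + 1) = (α n - n * δ - (α (n + 1) - (n + 1 : ℕ) * δ)) • u +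
          (β n - β (n + 1)) • w := by
        have : y n - y (n + 1) = (y n - a) - (y (n + 1) - a) := by abel
        rw [this, hyn, hyn]
        module
      rw [e, hpyth]
      have := sq_nonneg (α n - n * δ - (α (n + 1) - (n + 1 : ℕ) * δ))
      nlinarith)
  refine ⟨a + l • u + m • (‖w‖⁻¹ • w), ?_⟩
  have h1 := (hl.smul_const u).const_add a |>.add (hm.smul_const (‖w‖⁻¹ • w))
  refine h1.congr fun n => ?_
  have h2 : (β n * ‖w‖) • (‖w‖⁻¹ • w) = β n • w := by
    by_cases hw0 : w = 0
    · rw [hw0]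
      simp
    · rw [smul_smul, mul_assoc, mul_inv_cancel₀ (norm_ne_zero_iff.2 hw0), mul_one]
  rw [h2, hin]
  have h3 := hyn n
  rw [sub_eq_iff_eq_add] at h3
  rw [h3]
  abel

end disjoint

/-- For two closed balls `A = B(a,r)` and `B = B(b,s)` of a finite-dimensional real inner product
space, with Douglas-Rachford operator `T` and minimal displacement vector `v`, the sequence
`T^n x + n v` converges for every `x`. -/
theorem main [FiniteDimensional ℝ E] (a b : E) (r s : ℝ) (hr : 0 ≤ r) (hs : 0 ≤ s) (x : E) :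
    ∃ y, Tendsto (fun n : ℕ => (DR (closedBall a r) (closedBall b s))^[n] x +
      (n : ℝ) • minDisp (DR (closedBall a r) (closedBall b s))) atTop (𝓝 y) := by
  by_cases h : ‖b - a‖ ≤ r + s
  · -- the balls intersect
    have hc : ∃ c, c ∈ closedBall a r ∧ c ∈ closedBall b s := by
      by_cases hr2 : ‖b - a‖ ≤ r
      · exact ⟨b, by rwa [mem_closedBall, dist_eq_norm], by simpa using hs⟩
      · push Not at hr2
        have h0 : 0 < ‖b - a‖ := hr.trans_lt hr2
        refine ⟨a + (r / ‖b - a‖) • (b - a), ?_, ?_⟩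
        · rw [mem_closedBall, dist_eq_norm, add_sub_cancel_left, norm_smul, Real.norm_eq_abs,
            abs_of_nonneg (by positivity), div_mul_cancel₀ _ h0.ne']
        · have e1 : a + (r / ‖b - a‖) • (b - a) - b = (-(1 - r / ‖b - a‖)) • (b - a) := by module
          have h1 : 0 ≤ 1 - r / ‖b - a‖ := by
            rw [sub_nonneg, div_le_one h0]
            exact hr2.le
          rw [mem_closedBall, dist_eq_norm, e1, norm_smul, Real.norm_eq_abs, abs_neg,
            abs_of_nonneg h1, sub_mul, one_mul, div_mul_cancel₀ _ h0.ne']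
          linarith
    obtain ⟨c, hc1, hc2⟩ := hc
    have p1 : proj (closedBall a r) c = c :=
      proj_eq (convex_closedBall a r) hc1 fun q _ => by simp
    have p2 : proj (closedBall b s) c = c :=
      proj_eq (convex_closedBall b s) hc2 fun q _ => by simp
    have r1 : refl (closedBall a r) c = c := by
      unfold refl
      rw [p1]
      module
    have r2 : refl (closedBall b s) c = c := by
      unfold refl
      rw [p2]
      module
    have hT : DR (closedBall a r) (closedBall b s) c = c := by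
      unfold DR
      rw [r1, r2]
      module
    have hv : minDisp (DR (closedBall a r) (closedBall b s)) = 0 := by
      have hmem : (0 : E) ∈ closure (range fun x => x - DR (closedBall a r) (closedBall b s) x) :=
        subset_closure ⟨c, by simp [hT]⟩
      obtain ⟨-, h2⟩ := proj_spec'
        (C := closure (range fun x => x - DR (closedBall a r) (closedBall b s) x)) (x := (0 : E))
        ⟨0, hmem, fun q _ => by simp⟩
      have := h2 0 hmem
      unfold minDisp
      simpa using this
    rw [hv]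
    simp only [smul_zero, add_zero]
    exact (DR_firm a b hr hs).converges hT x
  · push Not at h
    have hD0 : 0 < ‖b - a‖ := by linarith
    have hb : b = a + ‖b - a‖ • (‖b - a‖⁻¹ • (b - a)) := by
      rw [smul_smul, mul_inv_cancel₀ hD0.ne', one_smul, add_sub_cancel]
    have hu : ‖‖b - a‖⁻¹ • (b - a)‖ = 1 := by
      rw [norm_smul, norm_inv, norm_norm, inv_mul_cancel₀ hD0.ne']
    have := disjoint_case a hu hr hs h x
    rwa [← hb] at this

/-- The case of `ℝ³`. -/
theorem result (a b : EuclideanSpace ℝ (Fin 3)) (r s : ℝ) (hr : 0 ≤ r) (hs : 0 ≤ s)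
    (x : EuclideanSpace ℝ (Fin 3)) :
    ∃ y, Tendsto (fun n : ℕ => (DR (closedBall a r) (closedBall b s))^[n] x +
      (n : ℝ) • minDisp (DR (closedBall a r) (closedBall b s))) atTop (𝓝 y) :=
  main a b r s hr hs x

end Pool.Agent.Results.MP_ef197a_an.TwoBalls
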